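import Pool.Agent.Helper17.CommC1.Asm

/-!
# The space of commuting pairs of `C^1` circle diffeomorphisms is not locally connected

`MP_ac5a3a_an`, question Q1 for `r = 1` (negative answer).

`CommC1.CommPairs` is the space of pairs of commuting orientation preserving `C^1`
diffeomorphisms of `ℝ / ℤ` with the `C^1` topology.

Idea. There is a commuting pair `(f, g)` of `C^1` diffeomorphisms of Pixton-Tsuboi type: the lift
`F` of `f` has a fixed point `p` and is to the right of the identity elsewhere, and the lift `G` of
`g` has infinitely many fixed points accumulating at `p`; the pair is a `C^1` limit of commuting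
pairs `(f_N, g_N)` for which the lift `F_N` has no fixed point at all. On the other hand, if
`G (x₀) > x₀` and `G (y) < y`, then for every pair near `(f, g)` and every `j` one has
`F ^ j (x₀) ≠ y`, because `G (F ^ j (x₀)) = F ^ j (G (x₀)) ≥ F ^ j (x₀)`. So the sets
`F ^ j (x₀) < y` are open and closed near `(f, g)`; they all contain `(f, g)` (the orbit of `x₀`
does not pass the fixed point `p`) and their intersection contains none of the `(f_N, g_N)`.
-/

open Topology

namespace Pool.Agent.Results.MP_ac5a3a_an.NotLocallyConnectedC1

open CommC1

/-- The space of commuting pairs of orientation preserving `C^1` diffeomorphisms of the circle is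
not locally connected: there are a commuting pair `q` and a neighbourhood `U` of `q` such that no
connected neighbourhood of `q` is contained in `U`. -/
theorem result : ¬ LocallyConnectedSpace CommPairs ∧
    ∃ q : CommPairs, ∃ U ∈ 𝓝 q, ∀ V ∈ 𝓝 q, V ⊆ U → ¬ IsConnected V := by
  obtain ⟨q, U, hU, h⟩ := CommC1.main
  refine ⟨fun hL => ?_, q, U, hU, fun V hV hVU hc => h V hV hVU hc.isPreconnected⟩
  obtain ⟨V, ⟨hVo, hqV, hVc⟩, hVU⟩ := (hL.open_connected_basis q).mem_iff.mp hU
  exact h V (hVo.mem_nhds hqV) hVU hVc.isPreconnected

end Pool.Agent.Results.MP_ac5a3a_an.NotLocallyConnectedC1
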